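import Pool.Agent.helper12.OB.SpecB

set_option autoImplicit false

namespace Pool.Agent.OB

open Pool.Agent.helper58.DC Pool.Agent.DI Pool.Agent.GR

theorem LAD_pw {G : Type} [Group G] (a b : ℕ) (ζ : G → ℂ) : pw a (pw b ζ) = pw (a * b) ζ := by
  funext x
  unfold pw
  rw [pow_mul]

theorem LAD_clf {G : Type} [Group G] {M : Ideal (integralClosure ℤ ℂ)} {ζ : G → ℂ} (h : ClF M ζ)
    (k : ℕ) : ClF M (pw k ζ) := by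
  refine ⟨fun x y => ?_, fun x => h.int _⟩
  unfold pw
  rw [conj_pow]
  exact h.cls _ _

theorem LAD_trans {p : ℕ} {M : Ideal (integralClosure ℤ ℂ)} (h : Setup p M) {G : Type} [Group G]
    {a b c : ℂ} (h1 : Cg p M G a b) (h2 : Cg p M G b c) : Cg p M G a c := by
  obtain ⟨w, hw, e1⟩ := h1
  obtain ⟨v, hv, e2⟩ := h2
  refine ⟨w + v, InM.add h hw hv, ?_⟩
  calc a - c = (a - b) + (b - c) := by ring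
    _ = _ := by rw [e1, e2]; ring

theorem LAD (hDBL : DBL_stmt) (hBR2 : BR2_stmt) (hBR3 : BR3_stmt) : LAD_stmt := by
  intro p e hpe M h G _ _ ζ hζ
  rcases hpe with ⟨rfl, rfl⟩ | ⟨rfl, rfl⟩
  · constructor
    · refine ⟨4, by norm_num, ?_⟩
      have h1 : Cg 2 M G (Sp 2 (pw 2 (pw 4 ζ)) (pw 2 (pw 4 ζ)) 1) (Sp 2 (pw 4 ζ) (pw 4 ζ) 2) :=
        hDBL 2 M h G 1 (pw 4 ζ) (pw 4 ζ) (LAD_clf hζ 4) (LAD_clf hζ 4)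
      have h2 : Cg 2 M G (Sp 2 (pw 2 (pw 2 ζ)) (pw 2 (pw 2 ζ)) 2) (Sp 2 (pw 2 ζ) (pw 2 ζ) 4) :=
        hDBL 2 M h G 2 (pw 2 ζ) (pw 2 ζ) (LAD_clf hζ 2) (LAD_clf hζ 2)
      have h3 : Cg 2 M G (Sp 2 (pw 2 ζ) (pw 2 ζ) 4) (To 2 ζ ζ 4) := hBR2 M h G 2 ζ ζ hζ hζ
      rw [LAD_pw] at h1 h2
      exact LAD_trans h h1 (LAD_trans h h2 h3)
    · have h2 : Cg 2 M G (Sp 2 (pw 2 (pw 2 ζ)) (pw 2 (pw 2 ζ)) 1) (Sp 2 (pw 2 ζ) (pw 2 ζ) 2) :=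
        hDBL 2 M h G 1 (pw 2 ζ) (pw 2 ζ) (LAD_clf hζ 2) (LAD_clf hζ 2)
      have h3 : Cg 2 M G (Sp 2 (pw 2 ζ) (pw 2 ζ) 2) (To 2 ζ ζ 0) := hBR2 M h G 0 ζ ζ hζ hζ
      rw [LAD_pw] at h2
      exact LAD_trans h h2 h3
  · constructor
    · refine ⟨6, by norm_num, ?_⟩
      have h1 : Cg 3 M G (Sp 3 (pw 3 (pw 3 ζ)) (pw 3 (pw 3 ζ)) 1) (Sp 3 (pw 3 ζ) (pw 3 ζ) 3) :=
        hDBL 3 M h G 1 (pw 3 ζ) (pw 3 ζ) (LAD_clf hζ 3) (LAD_clf hζ 3)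
      have h3 : Cg 3 M G (Sp 3 (pw 3 ζ) (pw 3 ζ) 3) (To 3 ζ ζ 6) := hBR3 M h G 2 ζ ζ hζ hζ
      rw [LAD_pw] at h1
      exact LAD_trans h h1 h3
    · exact hBR3 M h G 0 ζ ζ hζ hζ

end Pool.Agent.OB
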