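import Pool.Agent.helper38.OB.Spec

/-!
# The counting property of B_h-sets: row CEL (elements of a level in a short interval)
-/

set_option autoImplicit false

namespace Pool.Agent.OB

open Finset

theorem CEL_base (h : ℕ) (hh : 3 ≤ h) : ∃ b : ℕ, 1 ≤ b ∧ 1 ≤ C0 h ∧ Bs h = C0 h * b := by
  have hC : 1 ≤ C0 h := by
    unfold C0
    nlinarith
  refine ⟨C0 h ^ (6 * h - 1), Nat.one_le_pow _ _ hC, hC, ?_⟩
  have h1 : Bs h = C0 h ^ (6 * h) := by
    unfold Bs be
    rw [← pow_mul]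
  rw [h1, ← pow_succ']
  refine congrArg (fun t => C0 h ^ t) ?_
  omega

theorem CEL (hDIG : DIG_stmt) : CEL_stmt := by
  classical
  intro h hh l J hJ s
  obtain ⟨b, hb, hC, hB⟩ := CEL_base h hh
  have hP : 0 < Bs h ^ J := by
    refine Nat.pow_pos ?_
    rw [hB]
    exact Nat.mul_pos hC hb
  have hd := hDIG b (C0 h) J (lo h l) hb hC
  rw [← hB] at hd
  set D : Finset ℕ := (Finset.range (Bs h ^ J)).filter fun y =>
    ∀ j, lo h l ≤ j → j < J → y % Bs h ^ (j + 1) < Bs h ^ (j + 1) / C0 h with hD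
  obtain ⟨P, hPd⟩ : ∃ P : ℤ, P = (Bs h : ℤ) ^ J := ⟨_, rfl⟩
  have hP0 : 0 < P := by
    rw [hPd]
    exact_mod_cast hP
  have hcard : ((S h l).filter fun x : ℕ => |(x : ℤ) - s| ≤ 2 * (Bs h : ℤ) ^ J).card ≤
      ((Finset.Icc (s / P - 2) (s / P + 2)) ×ˢ D).card := by
    refine Finset.card_le_card_of_injOn (fun x : ℕ => ((x : ℤ) / P, x % Bs h ^ J)) ?_ ?_
    · intro x hx
      have hx' := Finset.mem_filter.mp (Finset.mem_coe.mp hx)
      obtain ⟨hxS, hxs⟩ := hx'
      rw [← hPd, abs_le] at hxs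
      have hS := (Finset.mem_filter.mp hxS).2.2.2
      refine Finset.mem_coe.mpr (Finset.mem_product.mpr ⟨Finset.mem_Icc.mpr ⟨?_, ?_⟩, ?_⟩)
      · have h1 : (s + (-2) * P) / P = s / P + (-2) := Int.add_mul_ediv_right s (-2) hP0.ne'
        have h2 : (s + (-2) * P) / P ≤ (x : ℤ) / P := Int.ediv_le_ediv hP0 (by linarith [hxs.1])
        change s / P - 2 ≤ (x : ℤ) / P
        linarith
      · have h1 : (s + 2 * P) / P = s / P + 2 := Int.add_mul_ediv_right s 2 hP0.ne'
        have h2 : (x : ℤ) / P ≤ (s + 2 * P) / P := Int.ediv_le_ediv hP0 (by linarith [hxs.2])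
        change (x : ℤ) / P ≤ s / P + 2
        linarith
      · refine Finset.mem_filter.mpr ⟨Finset.mem_range.mpr (Nat.mod_lt _ hP), fun j hj1 hj2 => ?_⟩
        have h3 : x % Bs h ^ J % Bs h ^ (j + 1) = x % Bs h ^ (j + 1) :=
          Nat.mod_mod_of_dvd x (pow_dvd_pow (Bs h) (by omega))
        change x % Bs h ^ J % Bs h ^ (j + 1) < _
        rw [h3]
        exact hS j hj1 (by omega)
    · intro x _ y _ hxy
      have h1 : (x : ℤ) / P = (y : ℤ) / P := congrArg Prod.fst hxy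
      have h2 : x % Bs h ^ J = y % Bs h ^ J := congrArg Prod.snd hxy
      have h3 : x / Bs h ^ J = y / Bs h ^ J := by
        have h4 : ((x / Bs h ^ J : ℕ) : ℤ) = ((y / Bs h ^ J : ℕ) : ℤ) := by
          push_cast
          rw [← hPd]
          exact h1
        exact_mod_cast h4
      calc x = Bs h ^ J * (x / Bs h ^ J) + x % Bs h ^ J := (Nat.div_add_mod _ _).symm
        _ = Bs h ^ J * (y / Bs h ^ J) + y % Bs h ^ J := by rw [h2, h3]
        _ = y := Nat.div_add_mod _ _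
  have h5 : (Finset.Icc (s / P - 2) (s / P + 2)).card = 5 := by
    rw [Int.card_Icc]
    have : s / P + 2 + 1 - (s / P - 2) = 5 := by ring
    rw [this]
    rfl
  rw [Finset.card_product, h5] at hcard
  calc _ ≤ (5 * D.card) * C0 h ^ (J - lo h l) := Nat.mul_le_mul_right _ hcard
    _ = 5 * (D.card * C0 h ^ (J - lo h l)) := by ring
    _ = 5 * Bs h ^ J := by rw [hd]
    _ ≤ 6 * Bs h ^ J := Nat.mul_le_mul_right _ (by norm_num)

end Pool.Agent.OB
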